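import Mathlib
import Pool.Agent.Lib.helper69.R3Total
import Pool.Agent.MP_0f71ae_nt.Transfer

set_option autoImplicit false

namespace Pool.Agent.Results.MP_0f71ae_nt.BehrendConstant

/-- `A` contains no progression `a, a + d, a + 2d` with `d ≥ 1`. -/
def APFree (A : Finset ℕ) : Prop :=
  ∀ a d : ℕ, 1 ≤ d → ¬ (a ∈ A ∧ a + d ∈ A ∧ a + 2 * d ∈ A)

open Classical in
/-- `r3 N` is the largest size of a subset of `{1, …, N}` which contains no progression
`a, a + d, a + 2d` with `d ≥ 1`. -/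
noncomputable def r3 (N : ℕ) : ℕ :=
  ((Finset.Icc 1 N).powerset.filter APFree).sup Finset.card

lemma rothNumberNat_le_r3 (N : ℕ) : rothNumberNat N ≤ r3 N := by
  classical
  obtain ⟨t, ht, hcard, hfree⟩ := rothNumberNat_spec N
  have hinj : Function.Injective (fun n : ℕ => n + 1) := add_left_injective 1
  have h1 : (t.image (fun n => n + 1)).card = t.card :=
    Finset.card_image_of_injective _ hinj
  rw [← hcard, ← h1]
  unfold r3
  apply Finset.le_sup (f := Finset.card)
  rw [Finset.mem_filter, Finset.mem_powerset]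
  constructor
  · intro x hx
    obtain ⟨a, ha, rfl⟩ := Finset.mem_image.1 hx
    have := Finset.mem_range.1 (ht ha)
    simp only [Finset.mem_Icc]
    omega
  · intro a d hd hcon
    obtain ⟨h0, h2, h3⟩ := hcon
    obtain ⟨x, hx, hx'⟩ := Finset.mem_image.1 h0
    obtain ⟨y, hy, hy'⟩ := Finset.mem_image.1 h2
    obtain ⟨z, hz, hz'⟩ := Finset.mem_image.1 h3
    have h4 : x = y := hfree (Finset.mem_coe.2 hx) (Finset.mem_coe.2 hy) (Finset.mem_coe.2 hz)
      (by omega)
    omega

/-- The bound with natural logarithms. -/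
theorem exp_form (mu : ℝ) (h0 : 0 < mu) (h1 : mu < 579/1904) (ε : ℝ) (hε : 0 < ε) :
    ∃ N₀ : ℕ, ∀ N : ℕ, N₀ ≤ N →
      (N : ℝ) * Real.exp (-((2 * √(Real.log (1 / mu)) + ε) * √(Real.log N)))
        ≤ rothNumberNat N := by
  set η : ℝ := min (1/16) ((579/1904 - mu) / 8) with hη
  have hηpos : 0 < η := by
    rw [hη]; apply lt_min (by norm_num); linarith
  have hη1 : η ≤ 1/16 := min_le_left _ _
  have hη2 : η ≤ (579/1904 - mu) / 8 := min_le_right _ _
  set gap : ℝ := 579/1904 - mu with hgap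
  have hgpos : 0 < gap := by rw [hgap]; linarith
  obtain ⟨N₀, hN₀⟩ := MP0f71ae.transfer (D := 2) (by norm_num) (μ := mu)
    (B := 3 / (2 * η ^ 2) + 1) (c := 1) h0 (by linarith) (by positivity) one_pos
    (by
      refine ⟨max 40 (⌈8 / gap⌉₊ + 1), fun M hM hle => ?_⟩
      have : NeZero M := ⟨hM.ne_zero⟩
      have h40 : 40 ≤ M := (le_max_left _ _).trans hle
      have hbig : ⌈8 / gap⌉₊ + 1 ≤ M := (le_max_right _ _).trans hle
      refine ⟨Pool.R3.modS η M, Pool.R3.modF η M, Pool.R3.model hηpos hη1 M h40 mu ?_⟩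
      have hMR : 8 / gap ≤ M := by
        have h2 := Nat.le_ceil (8 / gap)
        have h3 : ((⌈8 / gap⌉₊ + 1 : ℕ) : ℝ) ≤ M := by exact_mod_cast hbig
        push_cast at h3
        linarith
      have hM0 : (0 : ℝ) < M := by exact_mod_cast hM.pos
      have h8 : 8 ≤ gap * M := by
        rw [div_le_iff₀ hgpos] at hMR
        linarith
      have h9 : 4 * (M : ℝ) ≤ (gap / 2) * (M : ℝ) ^ 2 := by nlinarith
      have h10 : 4 * η * (M : ℝ) ^ 2 ≤ (gap / 2) * (M : ℝ) ^ 2 := by
        apply mul_le_mul_of_nonneg_right _ (by positivity)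
        linarith
      have h11 : mu = 579/1904 - gap := by rw [hgap]; ring
      rw [h11]
      nlinarith) hε
  refine ⟨N₀, fun N hN => ?_⟩
  have := hN₀ N hN
  have h2 : (2 * Real.log (1 / mu) / ((2 : ℕ) : ℝ)) = Real.log (1 / mu) := by
    push_cast; ring
  rw [h2] at this
  exact this

/-- For every `C > 2 √(log₂ (1904/579)) = 2.6210…` and all large `N`,
`r3 N ≥ N · 2 ^ (-C √(log₂ N))`. -/
theorem result (C : ℝ) (hC : 2 * √(Real.logb 2 (1904 / 579)) < C) :
    ∃ N₀ : ℕ, ∀ N : ℕ, N₀ ≤ N →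
      (N : ℝ) * (2 : ℝ) ^ (-(C * √(Real.logb 2 N))) ≤ r3 N := by
  have hlog2 : 0 < Real.log 2 := Real.log_pos (by norm_num)
  have hs2 : 0 < √(Real.log 2) := Real.sqrt_pos.2 hlog2
  have hss : √(Real.log 2) * √(Real.log 2) = Real.log 2 := Real.mul_self_sqrt hlog2.le
  -- rewrite the hypothesis with natural logarithms
  have hC' : 2 * √(Real.log (1904/579)) < C * √(Real.log 2) := by
    have h1 : √(Real.logb 2 (1904 / 579)) * √(Real.log 2) = √(Real.log (1904/579)) := by
      rw [← Real.sqrt_mul (Real.logb_nonneg (by norm_num) (by norm_num))]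
      congr 1
      unfold Real.logb
      field_simp
    calc 2 * √(Real.log (1904/579)) = (2 * √(Real.logb 2 (1904 / 579))) * √(Real.log 2) := by
          rw [← h1]; ring
      _ < C * √(Real.log 2) := mul_lt_mul_of_pos_right hC hs2
  -- choose mu
  have hcont : Filter.Tendsto (fun mu : ℝ => 2 * √(Real.log (1 / mu)))
      (nhds (579/1904)) (nhds (2 * √(Real.log (1904/579)))) := by
    have h2 : (1904/579 : ℝ) = 1 / (579/1904) := by norm_num
    rw [h2]
    apply Filter.Tendsto.const_mul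
    apply Filter.Tendsto.sqrt
    apply Filter.Tendsto.log
    · apply Filter.Tendsto.div tendsto_const_nhds Filter.tendsto_id
      norm_num
    · norm_num
  have hev : ∀ᶠ mu : ℝ in nhds (579/1904), 2 * √(Real.log (1 / mu)) < C * √(Real.log 2) :=
    hcont.eventually (gt_mem_nhds hC')
  rw [Metric.eventually_nhds_iff] at hev
  obtain ⟨d, hd, hdd⟩ := hev
  set mu : ℝ := 579/1904 - min (d/2) (1/10) with hmu
  have hmin : 0 < min (d/2) (1/10 : ℝ) := lt_min (by linarith) (by norm_num)
  have hmu1 : mu < 579/1904 := by rw [hmu]; linarith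
  have hmu0 : 0 < mu := by
    have : min (d/2) (1/10 : ℝ) ≤ 1/10 := min_le_right _ _
    rw [hmu]; linarith
  have hlt : 2 * √(Real.log (1 / mu)) < C * √(Real.log 2) := by
    apply hdd
    rw [Real.dist_eq, hmu]
    have : min (d/2) (1/10 : ℝ) ≤ d/2 := min_le_left _ _
    rw [abs_lt]
    constructor <;> linarith
  obtain ⟨N₀, hN₀⟩ := exp_form mu hmu0 hmu1 (C * √(Real.log 2) - 2 * √(Real.log (1 / mu)))
    (by linarith)
  refine ⟨max N₀ 1, fun N hN => ?_⟩
  have hNN₀ : N₀ ≤ N := (le_max_left _ _).trans hN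
  have hN1 : (1 : ℝ) ≤ N := by exact_mod_cast (le_max_right _ _).trans hN
  have h := hN₀ N hNN₀
  have hr : (rothNumberNat N : ℝ) ≤ r3 N := by exact_mod_cast rothNumberNat_le_r3 N
  refine le_trans (le_of_eq ?_) (h.trans hr)
  congr 1
  rw [Real.rpow_def_of_pos (by norm_num : (0 : ℝ) < 2)]
  congr 1
  have h3 : √(Real.log N) = √(Real.logb 2 N) * √(Real.log 2) := by
    rw [← Real.sqrt_mul (Real.logb_nonneg (by norm_num) hN1)]
    congr 1
    unfold Real.logb
    field_simp
  rw [h3]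
  have : Real.log 2 * -(C * √(Real.logb 2 N))
      = -(C * √(Real.logb 2 N) * (√(Real.log 2) * √(Real.log 2))) := by
    rw [hss]; ring
  rw [this]
  ring

end Pool.Agent.Results.MP_0f71ae_nt.BehrendConstant
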