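import Pool.Agent.MP_0f71ae_nt.R3Q.Final

/-!
# MP_0f71ae_nt: a new upper bound for sets without three-term progressions

`r₃(N) ≤ N exp (-c (log N)^{1/4} / (log log N)^{11/4})` for all large `N`.
-/

set_option autoImplicit false

namespace Pool.Agent.Results.MP_0f71ae_nt.QuarterRootUpperBound

/-- `A` contains no progression `a, a + d, a + 2d` with `d ≥ 1`. -/
def APFree (A : Finset ℕ) : Prop :=
  ∀ a d : ℕ, 1 ≤ d → ¬ (a ∈ A ∧ a + d ∈ A ∧ a + 2 * d ∈ A)

lemma card_le_roth (N : ℕ) (A : Finset ℕ) (hA : A ⊆ Finset.Icc 1 N) (hfree : APFree A) :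
    A.card ≤ rothNumberNat N := by
  classical
  have hinj : Set.InjOn (fun n : ℕ => n - 1) (A : Set ℕ) := by
    intro x hx y hy hxy
    have h1 := Finset.mem_Icc.1 (hA hx)
    have h2 := Finset.mem_Icc.1 (hA hy)
    simp only at hxy
    omega
  refine ThreeAPFree.le_rothNumberNat (A.image (fun n => n - 1)) ?_ ?_
    (Finset.card_image_of_injOn hinj)
  · intro a ha b hb c hc habc
    obtain ⟨x, hx, rfl⟩ := Finset.mem_image.1 (Finset.mem_coe.1 ha)
    obtain ⟨y, hy, rfl⟩ := Finset.mem_image.1 (Finset.mem_coe.1 hb)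
    obtain ⟨z, hz, rfl⟩ := Finset.mem_image.1 (Finset.mem_coe.1 hc)
    have h1 := Finset.mem_Icc.1 (hA hx)
    have h2 := Finset.mem_Icc.1 (hA hy)
    have h3 := Finset.mem_Icc.1 (hA hz)
    have habc' : (x - 1) + (z - 1) = (y - 1) + (y - 1) := habc
    show x - 1 = y - 1
    rcases lt_trichotomy x y with h | h | h
    · exfalso
      apply hfree x (y - x) (by omega)
      refine ⟨hx, ?_, ?_⟩
      · have : x + (y - x) = y := by omega
        rw [this]; exact hy
      · have : x + 2 * (y - x) = z := by omega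
        rw [this]; exact hz
    · rw [h]
    · exfalso
      apply hfree z (y - z) (by omega)
      refine ⟨hz, ?_, ?_⟩
      · have : z + (y - z) = y := by omega
        rw [this]; exact hy
      · have : z + 2 * (y - z) = x := by omega
        rw [this]; exact hx
  · intro x hx
    obtain ⟨y, hy, rfl⟩ := Finset.mem_image.1 hx
    have h1 := Finset.mem_Icc.1 (hA hy)
    omega

/-- There are `c > 0` and `N₀` such that for all `N ≥ N₀` every set `A ⊆ {1, …, N}` without
non-trivial three-term progression has at most `N exp (-c (log N)^{1/4} / (log log N)^{11/4})`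
elements. -/
theorem result : ∃ c : ℝ, 0 < c ∧ ∃ N₀ : ℕ, ∀ N : ℕ, N₀ ≤ N → ∀ A : Finset ℕ,
    A ⊆ Finset.Icc 1 N → APFree A →
      (A.card : ℝ) ≤
        N * Real.exp (-c * Real.log N ^ (1 / 4 : ℝ) / Real.log (Real.log N) ^ (11 / 4 : ℝ)) := by
  obtain ⟨c, hc, N₀, h⟩ := R3.q_roth_bound
  refine ⟨c, hc, N₀, fun N hN A hA hfree => ?_⟩
  refine le_trans ?_ (h N hN)
  exact_mod_cast card_le_roth N A hA hfree

end Pool.Agent.Results.MP_0f71ae_nt.QuarterRootUpperBound
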