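import Pool.Agent.MP_0f71ae_nt.Cnt.Every
import Pool.Agent.MP_0f71ae_nt.Rnd.Sparse

/-!
# Containers and random subsets at the scale of `r₃(N)`

`APFree` and `r3` are defined in `Pool.Agent.MP_0f71ae_nt.RegBase`; the number `apCount N` of
progression-free subsets of `{1, …, N}`, the set `aps A` of progressions in `A`, the property
`LinAt ε D N` and the set `badScales P a K` of exceptional scales are defined in
`Pool.Agent.MP_0f71ae_nt.Cnt.Defs`; the probability `prb N p E` of the property `E` of a random
subset of `{1, …, N}` of density `p`, the size `r3s S` of the largest progression-free subset of `S`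
and `Typical ε D N` are defined in `Pool.Agent.MP_0f71ae_nt.Rnd.Defs`.
-/

set_option autoImplicit false

namespace Pool.Agent.Results.MP_0f71ae_nt.RandomSets

open Pool.Agent.MP_0f71ae_nt.Reg Pool.Agent.MP_0f71ae_nt.Cnt Pool.Agent.MP_0f71ae_nt.Rnd

/-- (1) For all but few of the integers `k` of every window, for all `N` in `[2 ^ k, 2 ^ (k + 1))`:
`N` is typical, that is, `r₃` is almost linear on `[N / D, D N]`, there are at most
`2 ^ ((1 + ε) r₃(N))` progression-free subsets of `{1, …, N}`, every subset with at least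
`(1 + ε) r₃(N)` elements contains at least `D r₃(N)` progressions, the progression-free subsets are
covered by `exp (r₃(N) / D)` sets with at most `(1 + ε) r₃(N)` elements, and for every
`p ∈ [1 / D, 1]` the largest progression-free subset of a `p`-random subset of `{1, …, N}` has
between `(1 - ε) p r₃(N)` and `(1 + ε) p r₃(N)` elements, with probability at least
`1 - 2 exp (-ε² p r₃(N) / 24)`.
(2) `D` may be as large as `exp (δ √(log N))` if `η K` of the first `K` scales are excepted.
(3) For every `N` the number of progression-free subsets of `{1, …, N}` lies between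
`2 ^ r₃(N)` and `2 ^ (67 r₃(N))`, and every subset of `{1, …, N}` with many more than `r₃(N)`
elements contains many progressions. -/
theorem result :
    (∃ C : ℝ, ∀ ε : ℝ, 0 < ε → ε ≤ 1 → ∀ D : ℝ, 1 ≤ D → ∀ a K : ℕ,
      ((badScales (Typical ε D) a K).card : ℝ) ≤ C * Real.log (D * (a + K + 2) / ε) / ε * √K ∧
      ((badScales (LinAt ε D) a K).card : ℝ) ≤ C * (1 + Real.log (D / ε)) / ε * √K) ∧
    (∀ ε : ℝ, 0 < ε → ε ≤ 1 → ∀ η : ℝ, 0 < η → ∃ δ : ℝ, 0 < δ ∧ ∃ C : ℝ, ∀ K : ℕ,
      ((badScales (fun N => Typical ε (Real.exp (δ * √(Real.log N))) N) 0 K).card : ℝ) ≤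
        η * K + C) ∧
    (∀ N : ℕ, 2 ^ r3 N ≤ apCount N ∧ apCount N ≤ 2 ^ (67 * r3 N) ∧
      ∀ L : ℕ, 1 ≤ L → ∀ A ⊆ Finset.Icc 1 N,
        32 * Real.exp (4 * √(Real.log L)) * r3 N ≤ A.card → L * A.card ≤ (aps A).card) := by
  refine ⟨⟨3 * 10 ^ 7, ?_⟩, ?_, fun N => ⟨two_pow_le_apCount N, count_every N, sat_every N⟩⟩
  · intro ε hε hε1 D hD a K
    refine ⟨typical_win ε hε hε1 D hD a K, ?_⟩
    have h1 := scale_linear_win ε hε hε1 D hD a K
    have h2 : 0 ≤ Real.log (D / ε) := by
      apply Real.log_nonneg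
      rw [le_div_iff₀ hε]
      linarith
    have h3 : 1680 * (1 + Real.log (D / ε)) / ε * √K ≤
        3 * 10 ^ 7 * (1 + Real.log (D / ε)) / ε * √K := by
      gcongr
      norm_num
    exact h1.trans h3
  · intro ε hε hε1 η hη
    exact typical_sparse ε hε hε1 η hη

end Pool.Agent.Results.MP_0f71ae_nt.RandomSets
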