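import Pool.Agent.MP_0f71ae_nt.Sp.FA2

/-!
# The size law and the structure of progression-free sets of every size, at almost all scales

`APFree` and `r3` are defined in `Pool.Agent.MP_0f71ae_nt.RegBase`; `apCount` and `badScales` in
`Pool.Agent.MP_0f71ae_nt.Cnt.Defs`; `IsAP` in `Pool.Agent.MP_0f71ae_nt.Fine.Core`; `ph` in
`Pool.Agent.MP_0f71ae_nt.Fine.Arc`; `Even` in `Pool.Agent.MP_0f71ae_nt.Fine.Final`; `F` in
`Pool.Agent.MP_0f71ae_nt.Sz.Def`; `Law` in `Pool.Agent.MP_0f71ae_nt.Sp.FA2`.
-/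

set_option autoImplicit false

namespace Pool.Agent.Results.MP_0f71ae_nt.TypicalStructure

open Pool.Agent.MP_0f71ae_nt.Reg Pool.Agent.MP_0f71ae_nt.Cnt Pool.Agent.MP_0f71ae_nt.Fine
  Pool.Agent.MP_0f71ae_nt.Sp

/-- For all but few of the integers `k` of every window, the following holds for all `N` in
`[2 ^ k, 2 ^ (k + 1))`. Every progression-free subset of `{1, …, N}` with at least
`(1 - ε / 11) r₃(N)` elements is equidistributed (in all partitions into at most `L` progressions,
in all progressions and on all major arcs of height `L`); and, up to the factor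
`2 ^ (ε m + r₃(N) / D)`, the number of progression-free sets with `m` elements is the binomial
coefficient `(r₃(N) choose m)`, for all `m`; for every `m ≥ r₃(N) / D` almost all of them are
equidistributed; almost all progression-free sets have about `r₃(N) / 2` elements and are
equidistributed. Here `L` and `D` may grow with `N`. -/
theorem result :
    (∃ C : ℝ, ∀ ε : ℝ, 0 < ε → ε ≤ 1 → ∀ L : ℝ, 1 ≤ L → ∀ a K : ℕ,
      ((badScales (fun N => ∀ A ⊆ Finset.Icc 1 N, APFree A → (1 - ε / 11) * r3 N ≤ A.card →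
        Even ε L N A) a K).card : ℝ) ≤ C * (1 + Real.log (L / ε)) / ε * √K) ∧
    ∀ ε : ℝ, 0 < ε → ε ≤ 1 → ∃ c : ℝ, 0 < c ∧ ∃ C : ℝ, ∀ L D : ℝ, 1 ≤ L → 1 ≤ D → ∀ a K : ℕ,
      ((badScales (Law ε c L D) a K).card : ℝ) ≤ C * Real.log (L * D * (a + K + 2)) * √K :=
  ⟨law, law_even2⟩

end Pool.Agent.Results.MP_0f71ae_nt.TypicalStructure
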